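import Pool.Agent.Helper15.DAF.Stmts

/-! # Growth of sorted products (for theorem V of helper15, MP_c8969c_ag)

`g` is a space of endomorphisms of `V` closed under commutators, `F` a finite-dimensional subspace
such that every member of `g` differs from a combination of `v 0, ..., v (r - 1)` by an
endomorphism which preserves `F`.  Then the products of at most `m` members of `g` applied to `F`
span a space of dimension at most `(m + 1) ^ r * dim F`.
-/

set_option autoImplicit false

namespace Pool.Agent.Helper15.DAF

namespace S64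

open Submodule Module

variable {k V : Type*} [Field k] [AddCommGroup V] [Module k V]

/-- span of the products of less than `n` members of `g` applied to `F` -/
def T (g : Set (Module.End k V)) (F : Submodule k V) (n : ℕ) : Submodule k V :=
  span k {x | ∃ L : List (Module.End k V), (∀ a ∈ L, a ∈ g) ∧ L.length < n ∧
    ∃ f ∈ F, x = L.prod f}

/-- span of the sorted products of less than `n` of the `v i` applied to `F` -/
def S {r : ℕ} (v : Fin r → Module.End k V) (F : Submodule k V) (n : ℕ) : Submodule k V :=
  span k {x | ∃ l : List (Fin r), l.Pairwise (· ≤ ·) ∧ l.length < n ∧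
    ∃ f ∈ F, x = (l.map v).prod f}

theorem T_mono (g : Set (Module.End k V)) (F : Submodule k V) {m n : ℕ} (h : m ≤ n) :
    T g F m ≤ T g F n := by
  refine span_mono ?_
  rintro x ⟨L, h1, h2, h3⟩
  exact ⟨L, h1, h2.trans_le h, h3⟩

theorem S_mono {r : ℕ} (v : Fin r → Module.End k V) (F : Submodule k V) {m n : ℕ} (h : m ≤ n) :
    S v F m ≤ S v F n := by
  refine span_mono ?_
  rintro x ⟨L, h1, h2, h3⟩
  exact ⟨L, h1, h2.trans_le h, h3⟩

theorem T_zero (g : Set (Module.End k V)) (F : Submodule k V) : T g F 0 = ⊥ := by
  unfold T
  rw [span_eq_bot]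
  rintro x ⟨L, -, h2, -⟩
  exact absurd h2 (Nat.not_lt_zero _)

theorem mem_T (g : Set (Module.End k V)) (F : Submodule k V) {n : ℕ}
    {L : List (Module.End k V)} (hL : ∀ a ∈ L, a ∈ g) (hn : L.length < n) {f : V} (hf : f ∈ F) :
    L.prod f ∈ T g F n := subset_span ⟨L, hL, hn, f, hf, rfl⟩

theorem mul_mem_T (g : Set (Module.End k V)) (F : Submodule k V) {n : ℕ}
    {a : Module.End k V} (ha : a ∈ g) {x : V} (hx : x ∈ T g F n) : a x ∈ T g F (n + 1) := by
  unfold T at hx
  induction hx using Submodule.span_induction with
  | mem x hx =>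
    obtain ⟨L, h1, h2, f, hf, rfl⟩ := hx
    have : a (L.prod f) = (a :: L).prod f := by simp
    rw [this]
    refine mem_T g F ?_ (by simpa using h2) hf
    intro b hb
    rcases List.mem_cons.1 hb with rfl | hb
    · exact ha
    · exact h1 b hb
  | zero => simp
  | add x y _ _ hx hy => rw [map_add]; exact add_mem hx hy
  | smul c x _ hx => rw [map_smul]; exact smul_mem _ _ hx

theorem perm_mem (g : Set (Module.End k V)) (hg : ∀ a ∈ g, ∀ b ∈ g, a * b - b * a ∈ g)
    (F : Submodule k V) {f : V} (hf : f ∈ F) {L L' : List (Module.End k V)} (h : L.Perm L')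
    (hL : ∀ a ∈ L, a ∈ g) : L.prod f - L'.prod f ∈ T g F L.length := by
  induction h with
  | nil => simp
  | cons a h ih =>
    rename_i L1 L2
    have h1 := ih (fun b hb => hL b (List.mem_cons_of_mem _ hb))
    have h2 : (a :: L1).prod f - (a :: L2).prod f = a (L1.prod f - L2.prod f) := by
      simp [map_sub]
    rw [h2]
    exact mul_mem_T g F (hL a List.mem_cons_self) h1
  | swap a b L1 =>
    have hb : b ∈ g := hL b List.mem_cons_self
    have ha : a ∈ g := hL a (List.mem_cons_of_mem _ List.mem_cons_self)
    have h2 : (b :: a :: L1).prod f - (a :: b :: L1).prod f =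
        ((b * a - a * b) :: L1).prod f := by
      simp
    rw [h2]
    refine mem_T g F ?_ (by simp) hf
    intro c hc
    rcases List.mem_cons.1 hc with rfl | hc
    · exact hg b hb a ha
    · exact hL c (List.mem_cons_of_mem _ (List.mem_cons_of_mem _ hc))
  | trans h1 h2 ih1 ih2 =>
    rename_i L1 L2 L3
    have e1 := ih1 hL
    have e2 := ih2 (fun b hb => hL b (h1.mem_iff.2 hb))
    rw [← h1.length_eq] at e2
    have := add_mem e1 e2
    simpa using this

/-- `T n ≤ S n` -/
theorem T_le_S (g : Set (Module.End k V)) (hg : ∀ a ∈ g, ∀ b ∈ g, a * b - b * a ∈ g)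
    (F : Submodule k V) {r : ℕ} (v : Fin r → Module.End k V) (hv : ∀ i, v i ∈ g)
    (hF : ∀ a ∈ g, ∃ c : Fin r → k, ∃ w ∈ g, (∀ f ∈ F, w f ∈ F) ∧ a = w + ∑ i, c i • v i)
    (n : ℕ) : T g F n ≤ S v F n := by
  induction n with
  | zero => rw [T_zero]; exact bot_le
  | succ n ih =>
    have hTS : T g F n ≤ S v F (n + 1) := ih.trans (S_mono v F (Nat.le_succ n))
    have key : ∀ (L : List (Module.End k V)) (p : List (Fin r)), (∀ a ∈ L, a ∈ g) →
        p.length + L.length = n → ∀ f ∈ F, ((p.map v) ++ L).prod f ∈ S v F (n + 1) := by
      intro L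
      induction L with
      | nil =>
        intro p _ hp f hf
        rw [List.append_nil]
        have hp2 : p.length = n := by simpa using hp
        have hperm : p.Perm (p.insertionSort (· ≤ ·)) := (List.perm_insertionSort _ p).symm
        have h1 := perm_mem g hg F hf (hperm.map v) (fun a ha => by
          obtain ⟨i, _, rfl⟩ := List.mem_map.1 ha
          exact hv i)
        rw [List.length_map, hp2] at h1
        have h2 : ((p.insertionSort (· ≤ ·)).map v).prod f ∈ S v F (n + 1) := by
          refine subset_span ⟨p.insertionSort (· ≤ ·), ?_, ?_, f, hf, rfl⟩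
          · exact List.pairwise_insertionSort _ p
          · rw [List.length_insertionSort, hp2]; exact Nat.lt_succ_self n
        have h3 := add_mem (hTS h1) h2
        simpa using h3
      | cons a L ihL =>
        intro p hL hp f hf
        have haL : ∀ b ∈ L, b ∈ g := fun b hb => hL b (List.mem_cons_of_mem _ hb)
        have ha : a ∈ g := hL a List.mem_cons_self
        obtain ⟨c, a0, ha0g, hc, haeq⟩ := hF a ha
        have hlen : p.length + L.length + 1 = n := by
          have : p.length + (L.length + 1) = n := by simpa using hp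
          omega
        have e1 : ((p.map v) ++ a :: L).prod f = ((p.map v) ++ a0 :: L).prod f +
            ∑ i, c i • (((p ++ [i]).map v) ++ L).prod f := by
          simp only [List.prod_append, List.prod_cons, List.map_append, List.map_cons,
            List.map_nil, List.prod_nil, mul_one]
          conv_lhs => rw [haeq]
          rw [add_mul, mul_add, Finset.sum_mul, Finset.mul_sum, LinearMap.add_apply,
            LinearMap.sum_apply]
          congr 1
          refine Finset.sum_congr rfl fun i _ => ?_
          rw [smul_mul_assoc, mul_smul_comm, LinearMap.smul_apply, mul_assoc]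
        rw [e1]
        refine add_mem ?_ (sum_mem fun i _ => smul_mem _ _ ?_)
        · have hall : ∀ b ∈ (p.map v) ++ a0 :: L, b ∈ g := by
            intro b hb
            rcases List.mem_append.1 hb with hb | hb
            · obtain ⟨i, _, rfl⟩ := List.mem_map.1 hb
              exact hv i
            · rcases List.mem_cons.1 hb with rfl | hb
              · exact ha0g
              · exact haL b hb
          have hperm : ((p.map v) ++ a0 :: L).Perm (((p.map v) ++ L) ++ [a0]) := by
            rw [List.append_assoc]
            refine List.Perm.append_left _ ?_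
            exact (List.perm_append_singleton a0 L).symm
          have h1 := perm_mem g hg F hf hperm hall
          have hl : ((p.map v) ++ a0 :: L).length = n := by simp; omega
          rw [hl] at h1
          have h2 : (((p.map v) ++ L) ++ [a0]).prod f ∈ T g F n := by
            rw [List.prod_append, List.prod_singleton, Module.End.mul_apply]
            refine mem_T g F ?_ (by simp; omega) (hc f hf)
            intro b hb
            rcases List.mem_append.1 hb with hb | hb
            · obtain ⟨i, _, rfl⟩ := List.mem_map.1 hb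
              exact hv i
            · exact haL b hb
          have h3 := hTS (add_mem h1 h2)
          simpa using h3
        · refine ihL (p ++ [i]) haL ?_ f hf
          simp
          omega
    refine span_le.2 ?_
    rintro x ⟨L, h1, h2, f, hf, rfl⟩
    rcases Nat.lt_succ_iff_lt_or_eq.1 h2 with h3 | h3
    · exact hTS (mem_T g F h1 h3 hf)
    · have := key L [] h1 (by simpa using h3) f hf
      simpa using this

theorem finrank_sup_le {ι : Type*} (A : Finset ι) (W : ι → Submodule k V)
    (hW : ∀ i ∈ A, FiniteDimensional k (W i)) (d : ℕ) (hd : ∀ i ∈ A, finrank k (W i) ≤ d) :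
    FiniteDimensional k (A.sup W : Submodule k V) ∧
      finrank k (A.sup W : Submodule k V) ≤ A.card * d := by
  classical
  induction A using Finset.induction_on with
  | empty =>
    rw [Finset.sup_empty]
    exact ⟨inferInstance, by simp⟩
  | insert a A ha ih =>
    obtain ⟨h1, h2⟩ := ih (fun i hi => hW i (Finset.mem_insert_of_mem hi))
      (fun i hi => hd i (Finset.mem_insert_of_mem hi))
    have h3 := hW a (Finset.mem_insert_self a A)
    have h4 := hd a (Finset.mem_insert_self a A)
    rw [Finset.sup_insert, Finset.card_insert_of_notMem ha]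
    refine ⟨inferInstance, ?_⟩
    have h5 := Submodule.finrank_add_le_finrank_add_finrank (W a) (A.sup W)
    calc finrank k (W a ⊔ A.sup W : Submodule k V) ≤ finrank k (W a) +
          finrank k (A.sup W : Submodule k V) := h5
      _ ≤ d + A.card * d := add_le_add h4 h2
      _ = (A.card + 1) * d := by ring

/-- the sorted lists of length `< n + 1` -/
theorem card_sorted (r n : ℕ) :
    {l : List (Fin r) | l.Pairwise (· ≤ ·) ∧ l.length < n + 1}.Finite ∧
      {l : List (Fin r) | l.Pairwise (· ≤ ·) ∧ l.length < n + 1}.ncard ≤ (n + 1) ^ r := by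
  classical
  have hfin : {l : List (Fin r) | l.Pairwise (· ≤ ·) ∧ l.length < n + 1}.Finite :=
    (List.finite_length_le (Fin r) n).subset fun l hl => Nat.lt_succ_iff.1 hl.2
  refine ⟨hfin, ?_⟩
  have h1 : (Set.univ : Set (Fin r → Fin (n + 1))).ncard = (n + 1) ^ r := by
    rw [Set.ncard_univ, Nat.card_eq_fintype_card, Fintype.card_fun, Fintype.card_fin,
      Fintype.card_fin]
  rw [← h1]
  refine Set.ncard_le_ncard_of_injOn (fun l i => Fin.ofNat (n + 1) (l.count i))
    (fun _ _ => Set.mem_univ _) ?_ Set.finite_univ
  intro l hl l' hl' he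
  have hc : ∀ i, l.count i = l'.count i := by
    intro i
    have h2 := congrFun he i
    have h3 := congrArg Fin.val h2
    simp only [Fin.ofNat_eq_cast, Fin.val_natCast] at h3
    have h4 : l.count i < n + 1 := (List.count_le_length).trans_lt hl.2
    have h5 : l'.count i < n + 1 := (List.count_le_length).trans_lt hl'.2
    rwa [Nat.mod_eq_of_lt h4, Nat.mod_eq_of_lt h5] at h3
  exact (List.perm_iff_count.2 hc).eq_of_pairwise' hl.1 hl'.1

theorem finrank_S {r : ℕ} (v : Fin r → Module.End k V) (F : Submodule k V)
    [FiniteDimensional k F] (n : ℕ) :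
    FiniteDimensional k (S v F (n + 1)) ∧
      finrank k (S v F (n + 1)) ≤ (n + 1) ^ r * finrank k F := by
  classical
  obtain ⟨hfin, hcard⟩ := card_sorted r n
  set A := hfin.toFinset with hA
  have h1 := finrank_sup_le (k := k) A (fun l => F.map (l.map v).prod)
    (fun l _ => inferInstance) (finrank k F) (fun l _ => Submodule.finrank_map_le _ _)
  have h2 : S v F (n + 1) ≤ A.sup fun l => F.map (l.map v).prod := by
    refine span_le.2 ?_
    rintro x ⟨l, hl1, hl2, f, hf, rfl⟩
    have hl : l ∈ A := by rw [hA, Set.Finite.mem_toFinset]; exact ⟨hl1, hl2⟩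
    exact (Finset.le_sup (f := fun l => F.map (l.map v).prod) hl)
      (Submodule.mem_map_of_mem hf)
  obtain ⟨h3, h4⟩ := h1
  have := h3
  refine ⟨Submodule.finiteDimensional_of_le h2, ?_⟩
  refine (Submodule.finrank_mono h2).trans (h4.trans ?_)
  refine Nat.mul_le_mul_right _ ?_
  rw [hA, ← Set.ncard_eq_toFinset_card _ hfin]
  exact hcard

theorem Um_le_T (g : Set (Module.End k V)) (F : Submodule k V)
    (U : ℕ → Submodule k V) (h0 : U 0 = F)
    (h1 : ∀ m, U (m + 1) = U m ⊔ ⨆ u ∈ g, (U m).map u) (m : ℕ) : U m ≤ T g F (m + 1) := by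
  induction m with
  | zero =>
    rw [h0]
    intro f hf
    have := mem_T g F (n := 0 + 1) (L := []) (by simp) (by simp) hf
    simpa using this
  | succ m ih =>
    rw [h1]
    refine sup_le (ih.trans (T_mono g F (Nat.le_succ _))) (iSup₂_le fun u hu => ?_)
    rintro _ ⟨x, hx, rfl⟩
    exact mul_mem_T g F hu (ih hx)

end S64

/-- UPPER: growth at most `(m+1)^r`. -/
theorem st_UPPER : ST_UPPER := by
  intro V _ _ g F _ r v hv hg hF m
  obtain ⟨h1, h2⟩ := S64.finrank_S v F m
  have h3 := (S64.Um_le_T g F (fun m => Um g m F) rfl (fun _ => rfl) m).trans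
    (S64.T_le_S g hg F v hv hF (m + 1))
  exact ⟨Submodule.finiteDimensional_of_le h3, (Submodule.finrank_mono h3).trans h2⟩

end Pool.Agent.Helper15.DAF
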